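import Mathlib

/-!
A quadratic polynomial over `F_3` that misses a value on `{0,1}^3` and whose degree-1 rank relative
to `{0,1}`, up to constants, is at least `2 = p - 1`.
-/

set_option autoImplicit false

namespace Pool.Agent.Results.MP_d05de0_co.RankPThree

open MvPolynomial

/-- `P` is a product of polynomials each of (total) degree at most `d`. -/
def IsProdOfDegLE {p n : ℕ} (d : ℕ) (P : MvPolynomial (Fin n) (ZMod p)) : Prop :=
  ∃ L : List (MvPolynomial (Fin n) (ZMod p)), (∀ q ∈ L, q.totalDegree ≤ d) ∧ P = L.prod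

/-- `P` is a sum of `k` products of polynomials of degree at most `d`, each product of degree at
most `deg P`. -/
def HasDecomp {p n : ℕ} (d : ℕ) (P : MvPolynomial (Fin n) (ZMod p)) (k : ℕ) : Prop :=
  ∃ f : Fin k → MvPolynomial (Fin n) (ZMod p),
    (∀ i, IsProdOfDegLE d (f i) ∧ (f i).totalDegree ≤ P.totalDegree) ∧ P = ∑ i, f i

/-- The degree-`d` rank `rk_d P`: the least `k` such that `HasDecomp d P k`. -/
noncomputable def rk {p n : ℕ} (d : ℕ) (P : MvPolynomial (Fin n) (ZMod p)) : ℕ :=
  sInf {k | HasDecomp d P k}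

/-- The rank relative to `S`: the minimum of `rk_d (P - P₀)` over the polynomials `P₀` with
`deg P₀ ≤ deg P` that vanish on `S^n`. -/
noncomputable def rkRel {p n : ℕ} (d : ℕ) (S : Set (ZMod p)) (P : MvPolynomial (Fin n) (ZMod p)) :
    ℕ :=
  sInf {k | ∃ P₀ : MvPolynomial (Fin n) (ZMod p), P₀.totalDegree ≤ P.totalDegree ∧
    (∀ x : Fin n → ZMod p, (∀ i, x i ∈ S) → eval x P₀ = 0) ∧ k = rk d (P - P₀)}

/-- The rank relative to `S` up to constants. -/
noncomputable def rkRelBar {p n : ℕ} (d : ℕ) (S : Set (ZMod p))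
    (P : MvPolynomial (Fin n) (ZMod p)) : ℕ :=
  sInf {k | ∃ c : ZMod p, k = rkRel d S (P - C c)}

variable {p n : ℕ}

lemma monomial_isProd (d : ℕ) (hd : 1 ≤ d) (m : Fin n →₀ ℕ) (c : ZMod p) :
    IsProdOfDegLE d (monomial m c) := by
  classical
  refine ⟨C c :: (List.finRange n).flatMap (fun i => List.replicate (m i) (X i)), ?_, ?_⟩
  · intro q hq
    rw [List.mem_cons, List.mem_flatMap] at hq
    rcases hq with rfl | ⟨i, -, hi⟩
    · rw [totalDegree_C]
      exact Nat.zero_le _
    · rw [List.eq_of_mem_replicate hi]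
      refine le_trans (le_trans (totalDegree_monomial_le (Finsupp.single i 1) (1 : ZMod p)) ?_) hd
      rw [Finsupp.sum_single_index rfl]
      exact le_rfl
  · rw [List.prod_cons, List.flatMap_def, List.prod_flatten, List.map_map, monomial_eq]
    congr 1
    rw [Finsupp.prod_fintype _ _ (fun i => pow_zero _), ← List.prod_ofFn, List.ofFn_eq_map]
    congr 1
    apply List.map_congr_left
    intro i _
    simp

lemma hasDecomp_exists (d : ℕ) (hd : 1 ≤ d) (P : MvPolynomial (Fin n) (ZMod p)) :
    ∃ k, HasDecomp d P k := by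
  classical
  refine ⟨P.support.card, fun i => monomial (P.support.equivFin.symm i : Fin n →₀ ℕ)
    (coeff (P.support.equivFin.symm i : Fin n →₀ ℕ) P), fun i => ⟨monomial_isProd d hd _ _, ?_⟩, ?_⟩
  · refine le_trans (totalDegree_monomial_le _ _) ?_
    exact le_totalDegree (P.support.equivFin.symm i).2
  · rw [Equiv.sum_comp P.support.equivFin.symm
      (fun m : P.support => monomial (m : Fin n →₀ ℕ) (coeff (m : Fin n →₀ ℕ) P)),
      Finset.sum_coe_sort P.support (fun m => monomial m (coeff m P))]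
    exact (support_sum_monomial_coeff P).symm

lemma rk_spec (d : ℕ) (hd : 1 ≤ d) (P : MvPolynomial (Fin n) (ZMod p)) :
    HasDecomp d P (rk d P) :=
  Nat.sInf_mem (hasDecomp_exists d hd P)

lemma rkRel_spec (d : ℕ) (S : Set (ZMod p)) (P : MvPolynomial (Fin n) (ZMod p)) :
    ∃ P₀ : MvPolynomial (Fin n) (ZMod p), P₀.totalDegree ≤ P.totalDegree ∧
    (∀ x : Fin n → ZMod p, (∀ i, x i ∈ S) → eval x P₀ = 0) ∧ rkRel d S P = rk d (P - P₀) := by
  have h : {k | ∃ P₀ : MvPolynomial (Fin n) (ZMod p), P₀.totalDegree ≤ P.totalDegree ∧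
    (∀ x : Fin n → ZMod p, (∀ i, x i ∈ S) → eval x P₀ = 0) ∧ k = rk d (P - P₀)}.Nonempty :=
    ⟨_, 0, by rw [totalDegree_zero]; exact Nat.zero_le _, fun x _ => by rw [map_zero], rfl⟩
  exact Nat.sInf_mem h

lemma rkRelBar_spec (d : ℕ) (S : Set (ZMod p)) (P : MvPolynomial (Fin n) (ZMod p)) :
    ∃ c : ZMod p, rkRelBar d S P = rkRel d S (P - C c) := by
  have h : {k | ∃ c : ZMod p, k = rkRel d S (P - C c)}.Nonempty := ⟨_, 0, rfl⟩
  exact Nat.sInf_mem h

/-- A product of polynomials of degree at most one, of total degree at most two, is a product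
of two polynomials of degree at most one. -/
lemma two_factors [Fact p.Prime] (L : List (MvPolynomial (Fin n) (ZMod p)))
    (hL : ∀ q ∈ L, q.totalDegree ≤ 1) (hdeg : L.prod.totalDegree ≤ 2) :
    ∃ A B : MvPolynomial (Fin n) (ZMod p), A.totalDegree ≤ 1 ∧ B.totalDegree ≤ 1 ∧
      L.prod = A * B := by
  induction L with
  | nil => exact ⟨1, 1, by rw [totalDegree_one]; exact Nat.zero_le _,
      by rw [totalDegree_one]; exact Nat.zero_le _, by simp⟩
  | cons q L ih =>
    by_cases h0 : (q :: L).prod = 0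
    · exact ⟨0, 0, by rw [totalDegree_zero]; exact Nat.zero_le _,
        by rw [totalDegree_zero]; exact Nat.zero_le _, by rw [h0]; simp⟩
    rw [List.prod_cons] at h0 hdeg ⊢
    have hq0 : q ≠ 0 := left_ne_zero_of_mul h0
    have hL0 : L.prod ≠ 0 := right_ne_zero_of_mul h0
    rw [totalDegree_mul_of_isDomain hq0 hL0] at hdeg
    have hq1 := hL q (List.mem_cons_self)
    rcases Nat.eq_zero_or_pos q.totalDegree with hq | hq
    · obtain ⟨A, B, hA, hB, hAB⟩ := ih (fun r hr => hL r (List.mem_cons_of_mem _ hr)) (by omega)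
      refine ⟨q * A, B, ?_, hB, by rw [hAB, mul_assoc]⟩
      exact le_trans (totalDegree_mul _ _) (by omega)
    · exact ⟨q, L.prod, hq1, by omega, rfl⟩

lemma affine_eval (A : MvPolynomial (Fin n) (ZMod p)) (hA : A.totalDegree ≤ 1) :
    ∃ (a : ZMod p) (b : Fin n → ZMod p), ∀ x, eval x A = a + ∑ i, b i * x i := by
  classical
  refine ⟨coeff 0 A, fun i => coeff (Finsupp.single i 1) A, fun x => ?_⟩
  have hinj : Function.Injective (fun i : Fin n => Finsupp.single i (1 : ℕ)) := by
    intro i j h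
    exact Finsupp.single_left_injective one_ne_zero h
  have h1 : eval x A = ∑ m ∈ insert 0 (Finset.univ.map ⟨_, hinj⟩),
      coeff m A * ∏ i, x i ^ m i := by
    rw [eval_eq']
    apply Finset.sum_subset
    · intro m hm
      have h2 : m.degree ≤ 1 := le_trans (le_totalDegree hm) hA
      rw [Finset.mem_insert, Finset.mem_map]
      rcases Nat.lt_or_ge 0 m.degree with h | h
      · right
        have h3 : m.degree = 1 := by omega
        obtain ⟨i, hi⟩ : ∃ i, m i ≠ 0 := by
          by_contra hcon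
          push Not at hcon
          have : m = 0 := Finsupp.ext hcon
          rw [this, map_zero] at h3
          omega
        refine ⟨i, Finset.mem_univ _, ?_⟩
        change Finsupp.single i 1 = m
        have h4 : Finsupp.single i 1 ≤ m := by
          rw [Finsupp.single_le_iff]
          omega
        obtain ⟨m', hm'⟩ := exists_add_of_le h4
        have h5 : m'.degree = 0 := by
          have := congrArg Finsupp.degree hm'
          rw [map_add, Finsupp.degree_single, h3] at this
          omega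
        rw [Finsupp.degree_eq_zero_iff] at h5
        rw [hm', h5, add_zero]
      · left
        exact (Finsupp.degree_eq_zero_iff m).1 (by omega)
    · intro m _ hm
      rw [notMem_support_iff] at hm
      rw [hm, zero_mul]
  rw [h1, Finset.sum_insert, Finset.sum_map]
  · congr 1
    · simp
    · apply Finset.sum_congr rfl
      intro i _
      congr 1
      change ∏ j, x j ^ (Finsupp.single i 1) j = x i
      rw [Finset.prod_eq_single i]
      · simp
      · intro j _ hj
        rw [Finsupp.single_apply, if_neg (Ne.symm hj), pow_zero]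
      · intro h
        exact absurd (Finset.mem_univ _) h
  · rw [Finset.mem_map]
    rintro ⟨i, -, hi⟩
    exact (Finsupp.single_ne_zero.2 one_ne_zero) hi

set_option synthInstance.maxSize 10000 in
/-- The finite check over `F_3`. -/
lemma check : ∀ c a b : ZMod 3, a * b = 0 - c →
    ∀ a2 b2 : ZMod 3, (a + a2) * (b + b2) = 1 - c →
    ∀ a1 b1 : ZMod 3, (a + a1) * (b + b1) = 0 - c →
      (a + a1 + a2) * (b + b1 + b2) = 1 - c →
    ∀ a0 b0 : ZMod 3, (a + a0) * (b + b0) = 0 - c →
      (a + a0 + a1) * (b + b0 + b1) = 1 - c →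
      (a + a0 + a2) * (b + b0 + b2) = 0 - c →
      (a + a0 + a1 + a2) * (b + b0 + b1 + b2) = 1 - c → False := by
  decide

instance : Fact (Nat.Prime 3) := ⟨Nat.prime_three⟩

/-- The polynomial `x₂ + x₀ (x₁ - x₂)`. -/
noncomputable def PP : MvPolynomial (Fin 3) (ZMod 3) := X 2 + X 0 * (X 1 - X 2)

lemma eval_PP (x : Fin 3 → ZMod 3) : eval x PP = x 2 + x 0 * (x 1 - x 2) := by
  simp [PP]

lemma totalDegree_PP_sub_le (c : ZMod 3) : (PP - C c).totalDegree ≤ 2 := by
  refine le_trans (totalDegree_sub_C_le _ _) ?_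
  refine le_trans (totalDegree_add _ _) (max_le ?_ ?_)
  · exact le_trans (totalDegree_X (R := ZMod 3) (2 : Fin 3)).le (by norm_num)
  · refine le_trans (totalDegree_mul _ _) ?_
    have h1 := (totalDegree_X (R := ZMod 3) (0 : Fin 3)).le
    have h2 : (X 1 - X 2 : MvPolynomial (Fin 3) (ZMod 3)).totalDegree ≤ 1 := by
      refine le_trans (totalDegree_sub _ _) ?_
      rw [totalDegree_X, totalDegree_X, max_self]
    omega

lemma totalDegree_PP : PP.totalDegree = 2 := by
  apply le_antisymm
  · have := totalDegree_PP_sub_le 0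
    rwa [map_zero, sub_zero] at this
  · have h : (Finsupp.single 0 1 + Finsupp.single 1 1 : Fin 3 →₀ ℕ) ∈ PP.support := by
      rw [mem_support_iff]
      have h1 : PP = monomial (Finsupp.single 2 1) 1 +
          (monomial (Finsupp.single 0 1 + Finsupp.single 1 1) 1 -
            monomial (Finsupp.single 0 1 + Finsupp.single 2 1) 1) := by
        rw [PP, mul_sub, X, X, X, monomial_mul, monomial_mul, mul_one]
      rw [h1, coeff_add, coeff_sub, coeff_monomial, coeff_monomial, coeff_monomial, if_neg, if_pos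
        rfl, if_neg]
      · decide
      · intro h
        have := DFunLike.congr_fun h 2
        simp at this
      · intro h
        have := DFunLike.congr_fun h 2
        simp at this
    have := le_totalDegree h
    refine le_trans (le_of_eq ?_) this
    change 2 = Finsupp.degree _
    rw [map_add, Finsupp.degree_single, Finsupp.degree_single]

lemma two_le (c : ZMod 3) (P₀ : MvPolynomial (Fin 3) (ZMod 3))
    (hdeg : P₀.totalDegree ≤ (PP - C c).totalDegree)
    (h0 : ∀ x : Fin 3 → ZMod 3, (∀ i, x i ∈ ({0, 1} : Set (ZMod 3))) → eval x P₀ = 0) (k : ℕ)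
    (hk : HasDecomp 1 (PP - C c - P₀) k) : 2 ≤ k := by
  by_contra hlt
  have hd2 : (PP - C c - P₀).totalDegree ≤ 2 :=
    le_trans (totalDegree_sub _ _)
      (max_le (totalDegree_PP_sub_le c) (le_trans hdeg (totalDegree_PP_sub_le c)))
  obtain ⟨A, B, hA, hB, hAB⟩ : ∃ A B : MvPolynomial (Fin 3) (ZMod 3), A.totalDegree ≤ 1 ∧
      B.totalDegree ≤ 1 ∧ PP - C c - P₀ = A * B := by
    obtain ⟨f, hf, hsum⟩ := hk
    rcases Nat.lt_or_ge k 1 with hk0 | hk1
    · have : k = 0 := by omega
      subst this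
      refine ⟨0, 0, by rw [totalDegree_zero]; exact Nat.zero_le _,
        by rw [totalDegree_zero]; exact Nat.zero_le _, ?_⟩
      rw [hsum]
      simp
    · have : k = 1 := by omega
      subst this
      obtain ⟨⟨L, hL, hLp⟩, hfd⟩ := hf 0
      rw [hsum, Fin.sum_univ_one, hLp]
      exact two_factors L hL (by rw [← hLp]; exact le_trans hfd hd2)
  obtain ⟨a, a', ha⟩ := affine_eval A hA
  obtain ⟨b, b', hb⟩ := affine_eval B hB
  have key : ∀ x : Fin 3 → ZMod 3, (∀ i, x i ∈ ({0, 1} : Set (ZMod 3))) →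
      (a + (a' 0 * x 0 + a' 1 * x 1 + a' 2 * x 2)) * (b + (b' 0 * x 0 + b' 1 * x 1 + b' 2 * x 2)) =
        x 2 + x 0 * (x 1 - x 2) - c := by
    intro x hx
    have h1 := congrArg (eval x) hAB
    rw [map_sub, h0 x hx, sub_zero, map_sub, eval_PP, eval_C, map_mul, ha, hb,
      Fin.sum_univ_three, Fin.sum_univ_three] at h1
    exact h1.symm
  have hv : ∀ u v w : ZMod 3, u ∈ ({0, 1} : Set (ZMod 3)) → v ∈ ({0, 1} : Set (ZMod 3)) →
      w ∈ ({0, 1} : Set (ZMod 3)) →
      (a + (a' 0 * u + a' 1 * v + a' 2 * w)) * (b + (b' 0 * u + b' 1 * v + b' 2 * w)) =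
        w + u * (v - w) - c := by
    intro u v w hu hv hw
    have := key ![u, v, w] (by
      intro i
      fin_cases i
      · exact hu
      · exact hv
      · exact hw)
    simpa using this
  have m0 : (0 : ZMod 3) ∈ ({0, 1} : Set (ZMod 3)) := by simp
  have m1 : (1 : ZMod 3) ∈ ({0, 1} : Set (ZMod 3)) := by simp
  refine check c a b ?_ (a' 2) (b' 2) ?_ (a' 1) (b' 1) ?_ ?_ (a' 0) (b' 0) ?_ ?_ ?_ ?_
  · have := hv 0 0 0 m0 m0 m0
    linear_combination this
  · have := hv 0 0 1 m0 m0 m1
    linear_combination this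
  · have := hv 0 1 0 m0 m1 m0
    linear_combination this
  · have := hv 0 1 1 m0 m1 m1
    linear_combination this
  · have := hv 1 0 0 m1 m0 m0
    linear_combination this
  · have := hv 1 1 0 m1 m1 m0
    linear_combination this
  · have := hv 1 0 1 m1 m0 m1
    linear_combination this
  · have := hv 1 1 1 m1 m1 m1
    linear_combination this

/-- The statement of Q1 is false (already for `p = 3`, `S = {0, 1}`, `n = 3`). -/
theorem result :
    ¬ ∀ (p : ℕ), p.Prime → 3 ≤ p → ∀ S : Set (ZMod p), S.Nonempty →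
      ∀ (n : ℕ) (P : MvPolynomial (Fin n) (ZMod p)), P.totalDegree = 2 →
        (∃ v : ZMod p, ∀ x : Fin n → ZMod p, (∀ i, x i ∈ S) → eval x P ≠ v) →
        rkRelBar 1 S P ≤ p - 2 := by
  intro hall
  have h := hall 3 Nat.prime_three le_rfl {0, 1} ⟨0, by simp⟩ 3 PP totalDegree_PP ⟨2, by
    intro x hx
    rw [eval_PP]
    have h0 := hx 0
    have h1 := hx 1
    have h2 := hx 2
    simp only [Set.mem_insert_iff, Set.mem_singleton_iff] at h0 h1 h2
    rcases h0 with h0 | h0 <;> rcases h1 with h1 | h1 <;> rcases h2 with h2 | h2 <;>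
      rw [h0, h1, h2] <;> decide⟩
  obtain ⟨c, hc⟩ := rkRelBar_spec 1 {0, 1} PP
  obtain ⟨P₀, hdeg, h0, hrk⟩ := rkRel_spec 1 ({0, 1} : Set (ZMod 3)) (PP - C c)
  have h2 := two_le c P₀ hdeg h0 _ (rk_spec 1 le_rfl (PP - C c - P₀))
  rw [hc, hrk] at h
  omega

end Pool.Agent.Results.MP_d05de0_co.RankPThree
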